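import Pool.Agent.Helper14.W5.StD

/-!
# Project W5, module NFA: elementary operators
-/

set_option autoImplicit false

namespace Pool.Agent.Helper72.W5

open Pool.Agent.Helper14.W5
open Finset

/-! ### units of `ZMod (5 ^ s)` -/

private theorem five_nil (s : ℕ) : IsNilpotent (5 : ZMod (5 ^ s)) := by
  refine ⟨s, ?_⟩
  have h : ((5 ^ s : ℕ) : ZMod (5 ^ s)) = 0 := ZMod.natCast_self _
  push_cast at h
  exact h

private theorem unit_one_add {s : ℕ} (y : ZMod (5 ^ s)) : IsUnit (1 + 5 * y) :=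
  IsNilpotent.isUnit_one_add (Commute.isNilpotent_mul_right (Commute.all _ _) (five_nil s))

private theorem inv_spec {s : ℕ} (y : ZMod (5 ^ s)) : (1 + 5 * y) * (1 + 5 * y)⁻¹ = 1 :=
  ZMod.mul_inv_of_unit _ (unit_one_add y)

private theorem exists_t (s : ℕ) : ∃ t : ZMod (5 ^ s) → ZMod (5 ^ s),
    (∀ (i : ℕ) (y y' : ZMod (5 ^ s)), (5 : ZMod (5 ^ s)) ^ i ∣ y - y' → (5 : ZMod (5 ^ s)) ^ i ∣ t y - t y') ∧
    ∀ y, y * (1 + 5 * y)⁻¹ = (y + 5 * (-1) * y ^ 2) + 25 * t (y + 5 * (-1) * y ^ 2) := by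
  let φ : ZMod (5 ^ s) → ZMod (5 ^ s) := fun y => y + 5 * (-1) * y ^ 2
  have hφ : ∀ y y', φ y - φ y' = (y - y') * (1 + 5 * (-(y + y'))) := by
    intro y y'
    simp only [φ]
    ring
  have hinj : Function.Injective φ := by
    intro y y' h
    have h1 := hφ y y'
    rw [h, sub_self] at h1
    have h2 : (y - y') * (1 + 5 * (-(y + y'))) = 0 := h1.symm
    rw [(unit_one_add (-(y + y'))).mul_left_eq_zero] at h2
    exact sub_eq_zero.1 h2
  have hbij : Function.Bijective φ := Finite.injective_iff_bijective.1 hinj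
  let ψ := (Equiv.ofBijective φ hbij).symm
  have hψ : ∀ v, φ (ψ v) = v := fun v => (Equiv.ofBijective φ hbij).apply_symm_apply v
  have hψ' : ∀ y, ψ (φ y) = y := fun y => (Equiv.ofBijective φ hbij).symm_apply_apply y
  refine ⟨fun v => (ψ v) ^ 3 * (1 + 5 * ψ v)⁻¹, ?_, ?_⟩
  · intro i v v' h
    have h1 : (5 : ZMod (5 ^ s)) ^ i ∣ ψ v - ψ v' := by
      have h2 := hφ (ψ v) (ψ v')
      rw [hψ, hψ] at h2
      rw [h2] at h
      exact (unit_one_add _).dvd_mul_right.1 h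
    have e : (ψ v) ^ 3 * (1 + 5 * ψ v)⁻¹ - (ψ v') ^ 3 * (1 + 5 * ψ v')⁻¹ =
        (ψ v - ψ v') * (((ψ v) ^ 2 + ψ v * ψ v' + (ψ v') ^ 2 + 5 * (ψ v * ψ v') * (ψ v + ψ v'))
          * (1 + 5 * ψ v)⁻¹ * (1 + 5 * ψ v')⁻¹) := by
      linear_combination (-((ψ v) ^ 3 * (1 + 5 * ψ v)⁻¹)) * inv_spec (ψ v')
        + ((ψ v') ^ 3 * (1 + 5 * ψ v')⁻¹) * inv_spec (ψ v)
    show (5 : ZMod (5 ^ s)) ^ i ∣ (ψ v) ^ 3 * (1 + 5 * ψ v)⁻¹ - (ψ v') ^ 3 * (1 + 5 * ψ v')⁻¹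
    rw [e]
    exact Dvd.dvd.mul_right h1 _
  · intro y
    have h1 : ψ (y + 5 * (-1) * y ^ 2) = y := hψ' y
    simp only [h1]
    linear_combination (y - 5 * y ^ 2) * inv_spec y

/-! ### the substitutions `y ↦ y / (1 + 5 y)` -/

private theorem kY (ha : S5SubA) (hb : S5SubB) {r s : ℕ}
    (hm : ∀ d d' : ℤ, d ≤ d' → (Wd5 d : Submodule (ZMod 5) (Fn5 (5 ^ r) (5 ^ s))) ≤ Wd5 d') {d : ℤ}
    {F : Fn5 (5 ^ r) (5 ^ s)} (hF : F ∈ Wd5 d) :
    (fun x y => F x (y * (1 + 5 * y)⁻¹) - F x y) ∈ (Wd5 (d - 3) : Submodule (ZMod 5) (Fn5 (5 ^ r) (5 ^ s))) := by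
  obtain ⟨t, ht, hyt⟩ := exists_t s
  have h1 := (ha r s).1 t ht d F hF
  have h2 := (hb r s 2 (Or.inr rfl)).1 (-1) d F hF
  have h3 := (hb r s 2 (Or.inr rfl)).1 (-1) (d - 7) _ h1
  have e : (fun x y => F x (y * (1 + 5 * y)⁻¹) - F x y) =
      (fun x y => F x (y + 5 * (-1) * y ^ 2) - F x y) +
      (fun x y => (F x (y + 5 * (-1) * y ^ 2 + 25 * t (y + 5 * (-1) * y ^ 2)) - F x (y + 5 * (-1) * y ^ 2))
        - (F x (y + 25 * t y) - F x y)) + (fun x y => F x (y + 25 * t y) - F x y) := by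
    funext x y
    simp only [Pi.add_apply]
    rw [← hyt y]
    ring
  rw [e]
  refine add_mem (add_mem (hm _ _ ?_ h2) (hm _ _ ?_ h3)) (hm _ _ ?_ h1)
  · push_cast
    omega
  · push_cast
    omega
  · omega

private theorem kX (ha : S5SubA) (hb : S5SubB) {r s : ℕ}
    (hm : ∀ d d' : ℤ, d ≤ d' → (Wd5 d : Submodule (ZMod 5) (Fn5 (5 ^ r) (5 ^ s))) ≤ Wd5 d') {d : ℤ}
    {F : Fn5 (5 ^ r) (5 ^ s)} (hF : F ∈ Wd5 d) :
    (fun x y => F (x * (1 + 5 * x)⁻¹) y - F x y) ∈ (Wd5 (d - 3) : Submodule (ZMod 5) (Fn5 (5 ^ r) (5 ^ s))) := by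
  obtain ⟨t, ht, hyt⟩ := exists_t r
  have h1 := (ha r s).2 t ht d F hF
  have h2 := (hb r s 2 (Or.inr rfl)).2 (-1) d F hF
  have h3 := (hb r s 2 (Or.inr rfl)).2 (-1) (d - 7) _ h1
  have e : (fun x y => F (x * (1 + 5 * x)⁻¹) y - F x y) =
      (fun x y => F (x + 5 * (-1) * x ^ 2) y - F x y) +
      (fun x y => (F (x + 5 * (-1) * x ^ 2 + 25 * t (x + 5 * (-1) * x ^ 2)) y - F (x + 5 * (-1) * x ^ 2) y)
        - (F (x + 25 * t x) y - F x y)) + (fun x y => F (x + 25 * t x) y - F x y) := by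
    funext x y
    simp only [Pi.add_apply]
    rw [← hyt x]
    ring
  rw [e]
  refine add_mem (add_mem (hm _ _ ?_ h2) (hm _ _ ?_ h3)) (hm _ _ ?_ h1)
  · push_cast
    omega
  · push_cast
    omega
  · omega

/-! ### scaling -/

private theorem dX_apply {q q' : ℕ} (F : Fn5 q q') (x : ZMod q) (y : ZMod q') :
    (dX F) x y = F (x + 1) y - F x y := rfl

private theorem dY_apply {q q' : ℕ} (F : Fn5 q q') (x : ZMod q) (y : ZMod q') :
    (dY F) x y = F x (y + 1) - F x y := rfl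

private theorem shX {q q' : ℕ} (n : ℕ) (F : Fn5 q q') (x : ZMod q) (y : ZMod q') :
    (((1 + dX : Module.End (ZMod 5) (Fn5 q q')) ^ n) F) x y = F (x + n) y := by
  induction n generalizing x with
  | zero => simp
  | succ n ih =>
    rw [pow_succ', Module.End.mul_apply, LinearMap.add_apply, Pi.add_apply, Pi.add_apply, dX_apply,
      Module.End.one_apply, ih, ih]
    push_cast
    have e : x + 1 + (n : ZMod q) = x + (n + 1) := by ring
    rw [e]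
    ring

private theorem shY {q q' : ℕ} (n : ℕ) (F : Fn5 q q') (x : ZMod q) (y : ZMod q') :
    (((1 + dY : Module.End (ZMod 5) (Fn5 q q')) ^ n) F) x y = F x (y + n) := by
  induction n generalizing y with
  | zero => simp
  | succ n ih =>
    rw [pow_succ', Module.End.mul_apply, LinearMap.add_apply, Pi.add_apply, Pi.add_apply, dY_apply,
      Module.End.one_apply, ih, ih]
    push_cast
    have e : y + 1 + (n : ZMod q') = y + (n + 1) := by ring
    rw [e]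
    ring

private def sc (c c' : ℕ) {q q' : ℕ} : Module.End (ZMod 5) (Fn5 q q') where
  toFun F x y := F (c * x) (c' * y)
  map_add' _ _ := rfl
  map_smul' _ _ := rfl

private theorem sc_apply (c c' : ℕ) {q q' : ℕ} (F : Fn5 q q') (x : ZMod q) (y : ZMod q') :
    (sc c c' F) x y = F (c * x) (c' * y) := rfl

private theorem semX (c c' : ℕ) {q q' : ℕ} :
    SemiconjBy (sc c c' : Module.End (ZMod 5) (Fn5 q q')) ((1 + dX) ^ c - 1) dX := by
  show (sc c c' : Module.End (ZMod 5) (Fn5 q q')) * ((1 + dX) ^ c - 1) = dX * sc c c'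
  refine LinearMap.ext fun F => ?_
  funext x y
  rw [Module.End.mul_apply, Module.End.mul_apply, sc_apply, LinearMap.sub_apply, Pi.sub_apply, Pi.sub_apply, shX,
    Module.End.one_apply, dX_apply, sc_apply, sc_apply]
  have e : (c : ZMod q) * x + c = c * (x + 1) := by ring
  rw [e]

private theorem semY (c c' : ℕ) {q q' : ℕ} :
    SemiconjBy (sc c c' : Module.End (ZMod 5) (Fn5 q q')) ((1 + dY) ^ c' - 1) dY := by
  show (sc c c' : Module.End (ZMod 5) (Fn5 q q')) * ((1 + dY) ^ c' - 1) = dY * sc c c'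
  refine LinearMap.ext fun F => ?_
  funext x y
  rw [Module.End.mul_apply, Module.End.mul_apply, sc_apply, LinearMap.sub_apply, Pi.sub_apply, Pi.sub_apply, shY,
    Module.End.one_apply, dY_apply, sc_apply, sc_apply]
  have e : (c' : ZMod q') * y + c' = c' * (y + 1) := by ring
  rw [e]

/-- scaling preserves degrees -/
private theorem sc_mem {q q' : ℕ} (hc : Commute (dX : Module.End (ZMod 5) (Fn5 q q')) dY) (c c' : ℕ) {d : ℤ}
    {F : Fn5 q q'} (hF : F ∈ Wd5 d) : sc c c' F ∈ Wd5 d := by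
  intro i j hij
  set P : Module.End (ZMod 5) (Fn5 q q') := ∑ k ∈ range c, (1 + dX) ^ k with hP
  set Q : Module.End (ZMod 5) (Fn5 q q') := ∑ k ∈ range c', (1 + dY) ^ k with hQ
  have eP : (1 + dX : Module.End (ZMod 5) (Fn5 q q')) ^ c - 1 = P * dX := by
    rw [hP, ← geom_sum_mul, add_sub_cancel_left]
  have eQ : (1 + dY : Module.End (ZMod 5) (Fn5 q q')) ^ c' - 1 = Q * dY := by
    rw [hQ, ← geom_sum_mul, add_sub_cancel_left]
  have cP : Commute P dX := by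
    rw [hP]
    exact Commute.sum_left _ _ _ fun k _ => (((Commute.one_left _).add_left (Commute.refl _)).pow_left k)
  have cQ : Commute Q dY := by
    rw [hQ]
    exact Commute.sum_left _ _ _ fun k _ => (((Commute.one_left _).add_left (Commute.refl _)).pow_left k)
  have cQX : Commute (dX : Module.End (ZMod 5) (Fn5 q q')) Q := by
    rw [hQ]
    exact Commute.sum_right _ _ _ fun k _ => (((Commute.one_right _).add_right hc).pow_right k)
  have h1 : SemiconjBy (sc c c' : Module.End (ZMod 5) (Fn5 q q')) ((P * dX) ^ i * (Q * dY) ^ j) (dX ^ i * dY ^ j) := by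
    have hx := semX c c' (q := q) (q' := q')
    have hy := semY c c' (q := q) (q' := q')
    rw [eP] at hx
    rw [eQ] at hy
    exact (hx.pow_right i).mul_right (hy.pow_right j)
  have h2 : (P * dX) ^ i * (Q * dY) ^ j = P ^ i * Q ^ j * (dX ^ i * dY ^ j) := by
    rw [cP.mul_pow, cQ.mul_pow]
    have h3 : dX ^ i * Q ^ j = Q ^ j * dX ^ i := (cQX.pow_pow i j).eq
    calc P ^ i * dX ^ i * (Q ^ j * dY ^ j) = P ^ i * (dX ^ i * Q ^ j) * dY ^ j := by simp only [mul_assoc]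
      _ = P ^ i * Q ^ j * (dX ^ i * dY ^ j) := by rw [h3]; simp only [mul_assoc]
  have h4 : (dX ^ i * dY ^ j : Module.End (ZMod 5) (Fn5 q q')) * sc c c' = sc c c' * (P ^ i * Q ^ j * (dX ^ i * dY ^ j)) := by
    rw [← h2]
    exact h1.symm
  have h5 := LinearMap.congr_fun h4 F
  rw [Module.End.mul_apply] at h5
  rw [h5, Module.End.mul_apply, Module.End.mul_apply, hF i j hij, map_zero, map_zero]

private theorem oW_eq {r s : ℕ} (w : Fin 4) (F : Fn5 (5 ^ r) (5 ^ s)) :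
    oW w F = sc (((om4 w : ℤ) : ZMod (5 ^ r)).val) ((((om4 w : ℤ) : ZMod (5 ^ s))⁻¹).val) F := by
  funext x y
  show F ((((0 : ℤ) : ZMod (5 ^ r)) + ((om4 w : ℤ) : ZMod (5 ^ r)) * x) * ((((1 : ℤ)) : ZMod (5 ^ r)) + 5 * ((0 : ℤ) : ZMod (5 ^ r)) * x)⁻¹)
    ((((0 : ℤ) : ZMod (5 ^ s)) + ((1 : ℤ) : ZMod (5 ^ s)) * y) * (((om4 w : ℤ) : ZMod (5 ^ s)) + 5 * ((0 : ℤ) : ZMod (5 ^ s)) * y)⁻¹) = _
  have e1 : (((0 : ℤ) : ZMod (5 ^ r)) + ((om4 w : ℤ) : ZMod (5 ^ r)) * x) * ((((1 : ℤ)) : ZMod (5 ^ r)) + 5 * ((0 : ℤ) : ZMod (5 ^ r)) * x)⁻¹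
      = ((om4 w : ℤ) : ZMod (5 ^ r)) * x := by
    rw [Int.cast_zero, Int.cast_one, mul_zero, zero_mul, add_zero, ZMod.inv_one, mul_one, zero_add]
  have e2 : (((0 : ℤ) : ZMod (5 ^ s)) + ((1 : ℤ) : ZMod (5 ^ s)) * y) * (((om4 w : ℤ) : ZMod (5 ^ s)) + 5 * ((0 : ℤ) : ZMod (5 ^ s)) * y)⁻¹
      = ((om4 w : ℤ) : ZMod (5 ^ s))⁻¹ * y := by
    rw [Int.cast_zero, Int.cast_one, mul_zero, zero_mul, add_zero, zero_add, one_mul, mul_comm]
  rw [e1, e2, sc_apply, ZMod.natCast_zmod_val, ZMod.natCast_zmod_val]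

/-! ### the operator `(x, y) ↦ (a - x, b - y)` -/

private def nn {q q' : ℕ} (a : ZMod q) (b : ZMod q') : Module.End (ZMod 5) (Fn5 q q') where
  toFun F x y := F (a - x) (b - y)
  map_add' _ _ := rfl
  map_smul' _ _ := rfl

private theorem nn_apply {q q' : ℕ} (a : ZMod q) (b : ZMod q') (F : Fn5 q q') (x : ZMod q) (y : ZMod q') :
    (nn a b F) x y = F (a - x) (b - y) := rfl

private theorem nnX {q q' : ℕ} (i : ℕ) (a : ZMod q) (b : ZMod q') (F : Fn5 q q') :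
    (dX ^ i : Module.End (ZMod 5) (Fn5 q q')) (nn a b F) = (-1 : ZMod 5) ^ i • nn (a - (i : ZMod q)) b ((dX ^ i : Module.End (ZMod 5) (Fn5 q q')) F) := by
  induction i generalizing a F with
  | zero => simp
  | succ i ih =>
    have h1 : dX (nn a b F) = (-1 : ZMod 5) • nn (a - 1) b (dX F) := by
      funext x y
      rw [dX_apply, Pi.smul_apply, Pi.smul_apply, nn_apply, nn_apply, nn_apply, dX_apply]
      have e1 : a - (x + 1) = a - 1 - x := by ring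
      have e2 : a - 1 - x + 1 = a - x := by ring
      rw [e1, e2, smul_eq_mul]
      ring
    rw [pow_succ, Module.End.mul_apply, h1, map_smul, ih, Module.End.mul_apply, smul_smul, pow_succ]
    have e3 : a - 1 - (i : ZMod q) = a - ((i + 1 : ℕ) : ZMod q) := by push_cast; ring
    rw [e3, mul_comm]

private theorem nnY {q q' : ℕ} (i : ℕ) (a : ZMod q) (b : ZMod q') (F : Fn5 q q') :
    (dY ^ i : Module.End (ZMod 5) (Fn5 q q')) (nn a b F) = (-1 : ZMod 5) ^ i • nn a (b - (i : ZMod q')) ((dY ^ i : Module.End (ZMod 5) (Fn5 q q')) F) := by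
  induction i generalizing b F with
  | zero => simp
  | succ i ih =>
    have h1 : dY (nn a b F) = (-1 : ZMod 5) • nn a (b - 1) (dY F) := by
      funext x y
      rw [dY_apply, Pi.smul_apply, Pi.smul_apply, nn_apply, nn_apply, nn_apply, dY_apply]
      have e1 : b - (y + 1) = b - 1 - y := by ring
      have e2 : b - 1 - y + 1 = b - y := by ring
      rw [e1, e2, smul_eq_mul]
      ring
    rw [pow_succ, Module.End.mul_apply, h1, map_smul, ih, Module.End.mul_apply, smul_smul, pow_succ]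
    have e3 : b - 1 - (i : ZMod q') = b - ((i + 1 : ℕ) : ZMod q') := by push_cast; ring
    rw [e3, mul_comm]

private theorem oW2_eq {r s : ℕ} (F : Fn5 (5 ^ r) (5 ^ s)) : oW 2 F = nn 0 0 F := by
  funext x y
  have h1 : (-1 : ZMod (5 ^ s))⁻¹ = -1 := by
    have h2 : (-1 : ZMod (5 ^ s)) * (-1 : ZMod (5 ^ s))⁻¹ = 1 := ZMod.mul_inv_of_unit _ isUnit_one.neg
    linear_combination (-1 : ZMod (5 ^ s)) * h2
  show F ((((0 : ℤ) : ZMod (5 ^ r)) + ((-1 : ℤ) : ZMod (5 ^ r)) * x) * ((((1 : ℤ)) : ZMod (5 ^ r)) + 5 * ((0 : ℤ) : ZMod (5 ^ r)) * x)⁻¹)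
    ((((0 : ℤ) : ZMod (5 ^ s)) + ((1 : ℤ) : ZMod (5 ^ s)) * y) * (((-1 : ℤ) : ZMod (5 ^ s)) + 5 * ((0 : ℤ) : ZMod (5 ^ s)) * y)⁻¹) = _
  have e1 : (((0 : ℤ) : ZMod (5 ^ r)) + ((-1 : ℤ) : ZMod (5 ^ r)) * x) * ((((1 : ℤ)) : ZMod (5 ^ r)) + 5 * ((0 : ℤ) : ZMod (5 ^ r)) * x)⁻¹
      = 0 - x := by
    rw [Int.cast_zero, Int.cast_neg, Int.cast_one, mul_zero, zero_mul, add_zero, ZMod.inv_one, mul_one]
    ring
  have e2 : (((0 : ℤ) : ZMod (5 ^ s)) + ((1 : ℤ) : ZMod (5 ^ s)) * y) * (((-1 : ℤ) : ZMod (5 ^ s)) + 5 * ((0 : ℤ) : ZMod (5 ^ s)) * y)⁻¹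
      = 0 - y := by
    rw [Int.cast_zero, Int.cast_neg, Int.cast_one, mul_zero, zero_mul, add_zero, h1]
    ring
  rw [e1, e2, nn_apply]

theorem hNfa (hl : S5Low0) (ha : S5SubA) (hb : S5SubB) : S5Nfa := by
  intro r s
  obtain ⟨-, -, -, -, hm, -, hX, hY, hXY, -, -, -, hcst, -⟩ := hl r s
  have hsum := (hl r s).2.1
  have hlow := (hl r s).2.2.2.1
  have hc : Commute (dX : Module.End (ZMod 5) (Fn5 (5 ^ r) (5 ^ s))) dY := hXY
  have hW : ∀ (w : Fin 4) (d : ℤ) (F : Fn5 (5 ^ r) (5 ^ s)), F ∈ Wd5 d → oW w F ∈ Wd5 d := by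
    intro w d F hF
    rw [oW_eq]
    exact sc_mem hc _ _ hF
  -- the sign operator
  have hN : ∀ (d : ℤ) (F : Fn5 (5 ^ r) (5 ^ s)), F ∈ Wd5 d → ∀ i j : ℕ, (i : ℤ) + j = d →
      (dX ^ i * dY ^ j : Module.End (ZMod 5) (Fn5 (5 ^ r) (5 ^ s))) (oW 2 F) =
        (-1 : ZMod 5) ^ (i + j) • (dX ^ i * dY ^ j : Module.End (ZMod 5) (Fn5 (5 ^ r) (5 ^ s))) F := by
    intro d F hF i j hij
    set G := (dX ^ i * dY ^ j : Module.End (ZMod 5) (Fn5 (5 ^ r) (5 ^ s))) F with hG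
    have hG0 : G ∈ Wd5 0 := by
      intro i' j' h
      have e : (dX ^ i' * dY ^ j' : Module.End (ZMod 5) (Fn5 (5 ^ r) (5 ^ s))) * (dX ^ i * dY ^ j) =
          dX ^ (i' + i) * dY ^ (j' + j) := by
        have h3 : (dY : Module.End (ZMod 5) (Fn5 (5 ^ r) (5 ^ s))) ^ j' * dX ^ i = dX ^ i * dY ^ j' :=
          ((hc.symm).pow_pow j' i).eq
        calc (dX ^ i' * dY ^ j' : Module.End (ZMod 5) (Fn5 (5 ^ r) (5 ^ s))) * (dX ^ i * dY ^ j)
            = dX ^ i' * (dY ^ j' * dX ^ i) * dY ^ j := by simp only [mul_assoc]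
          _ = dX ^ (i' + i) * dY ^ (j' + j) := by rw [h3, pow_add, pow_add]; simp only [mul_assoc]
      rw [hG, ← Module.End.mul_apply, e]
      refine hF _ _ ?_
      push_cast
      omega
    have hGc := hcst G hG0
    rw [oW2_eq, Module.End.mul_apply, nnY, map_smul, nnX, smul_smul, ← pow_add, add_comm j i]
    congr 1
    have e : (dX ^ i : Module.End (ZMod 5) (Fn5 (5 ^ r) (5 ^ s))) ((dY ^ j : Module.End (ZMod 5) (Fn5 (5 ^ r) (5 ^ s))) F) = G := by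
      rw [hG, Module.End.mul_apply]
    rw [e]
    funext x y
    rw [nn_apply, hGc, hGc x y]
  have hA3 : Lw (oA - 1 - dX : Module.End (ZMod 5) (Fn5 (5 ^ r) (5 ^ s))) 3 := by
    intro d F hF
    have h1 : (1 + dX : Module.End (ZMod 5) (Fn5 (5 ^ r) (5 ^ s))) F ∈ Wd5 d := by
      rw [LinearMap.add_apply, Module.End.one_apply]
      exact add_mem hF (hm _ _ (by omega) (hX d F hF))
    have h2 := kY ha hb hm h1
    have e : (oA - 1 - dX : Module.End (ZMod 5) (Fn5 (5 ^ r) (5 ^ s))) F =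
        fun x y => ((1 + dX : Module.End (ZMod 5) (Fn5 (5 ^ r) (5 ^ s))) F) x (y * (1 + 5 * y)⁻¹)
          - ((1 + dX : Module.End (ZMod 5) (Fn5 (5 ^ r) (5 ^ s))) F) x y := by
      funext x y
      have e1 : ∀ z, ((1 + dX : Module.End (ZMod 5) (Fn5 (5 ^ r) (5 ^ s))) F) x z = F (x + 1) z := by
        intro z
        rw [LinearMap.add_apply, Pi.add_apply, Pi.add_apply, Module.End.one_apply, dX_apply]
        ring
      rw [e1, e1, LinearMap.sub_apply, LinearMap.sub_apply, Pi.sub_apply, Pi.sub_apply, Pi.sub_apply, Pi.sub_apply,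
        Module.End.one_apply, dX_apply]
      have e2 : (oA F) x y = F (x + 1) (y * (1 + 5 * y)⁻¹) := by
        show F ((((1 : ℤ) : ZMod (5 ^ r)) + ((1 : ℤ) : ZMod (5 ^ r)) * x) * ((((1 : ℤ)) : ZMod (5 ^ r)) + 5 * ((0 : ℤ) : ZMod (5 ^ r)) * x)⁻¹)
          ((((0 : ℤ) : ZMod (5 ^ s)) + ((1 : ℤ) : ZMod (5 ^ s)) * y) * (((1 : ℤ) : ZMod (5 ^ s)) + 5 * ((1 : ℤ) : ZMod (5 ^ s)) * y)⁻¹) = _
        have f1 : (((1 : ℤ) : ZMod (5 ^ r)) + ((1 : ℤ) : ZMod (5 ^ r)) * x) * ((((1 : ℤ)) : ZMod (5 ^ r)) + 5 * ((0 : ℤ) : ZMod (5 ^ r)) * x)⁻¹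
            = x + 1 := by
          rw [Int.cast_zero, Int.cast_one, mul_zero, zero_mul, add_zero, ZMod.inv_one, mul_one]
          ring
        have f2 : (((0 : ℤ) : ZMod (5 ^ s)) + ((1 : ℤ) : ZMod (5 ^ s)) * y) * (((1 : ℤ) : ZMod (5 ^ s)) + 5 * ((1 : ℤ) : ZMod (5 ^ s)) * y)⁻¹
            = y * (1 + 5 * y)⁻¹ := by
          rw [Int.cast_zero, Int.cast_one, one_mul, mul_one, zero_add]
        rw [f1, f2]
      rw [e2]
      ring
    rw [e]
    exact h2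
  have hB3 : Lw (oB - 1 - dY : Module.End (ZMod 5) (Fn5 (5 ^ r) (5 ^ s))) 3 := by
    intro d F hF
    have h1 : (1 + dY : Module.End (ZMod 5) (Fn5 (5 ^ r) (5 ^ s))) F ∈ Wd5 d := by
      rw [LinearMap.add_apply, Module.End.one_apply]
      exact add_mem hF (hm _ _ (by omega) (hY d F hF))
    have h2 := kX ha hb hm h1
    have e : (oB - 1 - dY : Module.End (ZMod 5) (Fn5 (5 ^ r) (5 ^ s))) F =
        fun x y => ((1 + dY : Module.End (ZMod 5) (Fn5 (5 ^ r) (5 ^ s))) F) (x * (1 + 5 * x)⁻¹) y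
          - ((1 + dY : Module.End (ZMod 5) (Fn5 (5 ^ r) (5 ^ s))) F) x y := by
      funext x y
      have e1 : ∀ z, ((1 + dY : Module.End (ZMod 5) (Fn5 (5 ^ r) (5 ^ s))) F) z y = F z (y + 1) := by
        intro z
        rw [LinearMap.add_apply, Pi.add_apply, Pi.add_apply, Module.End.one_apply, dY_apply]
        ring
      rw [e1, e1, LinearMap.sub_apply, LinearMap.sub_apply, Pi.sub_apply, Pi.sub_apply, Pi.sub_apply, Pi.sub_apply,
        Module.End.one_apply, dY_apply]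
      have e2 : (oB F) x y = F (x * (1 + 5 * x)⁻¹) (y + 1) := by
        show F ((((0 : ℤ) : ZMod (5 ^ r)) + ((1 : ℤ) : ZMod (5 ^ r)) * x) * ((((1 : ℤ)) : ZMod (5 ^ r)) + 5 * ((1 : ℤ) : ZMod (5 ^ r)) * x)⁻¹)
          ((((1 : ℤ) : ZMod (5 ^ s)) + ((1 : ℤ) : ZMod (5 ^ s)) * y) * (((1 : ℤ) : ZMod (5 ^ s)) + 5 * ((0 : ℤ) : ZMod (5 ^ s)) * y)⁻¹) = _
        have f1 : (((0 : ℤ) : ZMod (5 ^ r)) + ((1 : ℤ) : ZMod (5 ^ r)) * x) * ((((1 : ℤ)) : ZMod (5 ^ r)) + 5 * ((1 : ℤ) : ZMod (5 ^ r)) * x)⁻¹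
            = x * (1 + 5 * x)⁻¹ := by
          rw [Int.cast_zero, Int.cast_one, one_mul, mul_one, zero_add]
        have f2 : (((1 : ℤ) : ZMod (5 ^ s)) + ((1 : ℤ) : ZMod (5 ^ s)) * y) * (((1 : ℤ) : ZMod (5 ^ s)) + 5 * ((0 : ℤ) : ZMod (5 ^ s)) * y)⁻¹
            = y + 1 := by
          rw [Int.cast_zero, Int.cast_one, mul_zero, zero_mul, add_zero, ZMod.inv_one, mul_one]
          ring
        rw [f1, f2]
      rw [e2]
      ring
    rw [e]
    exact h2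
  refine ⟨?_, ?_, ?_, ?_, hA3, hB3, ?_, ?_⟩
  · intro w d F hF
    rw [sub_zero]
    exact hW w d F hF
  · intro d F hF hd i j hij
    rw [map_sub]
    rcases lt_or_eq_of_le (show d ≤ (i : ℤ) + j by omega) with h | h
    · rw [hW 2 d F hF i j h, hF i j h, sub_zero]
    · rw [hN d F hF i j h.symm]
      have h2 : Even (i + j) := by
        rw [h] at hd
        exact_mod_cast hd
      rw [h2.neg_one_pow, one_smul, sub_self]
  · intro d F hF hd i j hij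
    rw [map_add]
    rcases lt_or_eq_of_le (show d ≤ (i : ℤ) + j by omega) with h | h
    · rw [hW 2 d F hF i j h, hF i j h, add_zero]
    · rw [hN d F hF i j h.symm]
      have h2 : Odd (i + j) := by
        rw [h] at hd
        exact_mod_cast hd
      rw [h2.neg_one_pow, neg_smul, one_smul, neg_add_cancel]
  · -- `oD`
    intro d F hF
    have h6 : (6 : ZMod (5 ^ s)) * (6 : ZMod (5 ^ s))⁻¹ = 1 := by
      have h := inv_spec (1 : ZMod (5 ^ s))
      have e : (1 + 5 * 1 : ZMod (5 ^ s)) = 6 := by norm_num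
      rw [e] at h
      exact h
    have h1 := (hb r s 1 (Or.inl rfl)).1 (-(6 : ZMod (5 ^ s))⁻¹) d F hF
    have hG : (fun x y => F x (y + 5 * (-(6 : ZMod (5 ^ s))⁻¹) * y ^ 1)) ∈
        (Wd5 d : Submodule (ZMod 5) (Fn5 (5 ^ r) (5 ^ s))) := by
      have e : (fun x y => F x (y + 5 * (-(6 : ZMod (5 ^ s))⁻¹) * y ^ 1)) =
          (fun x y => F x (y + 5 * (-(6 : ZMod (5 ^ s))⁻¹) * y ^ 1) - F x y) + F := by
        funext x y
        rw [Pi.add_apply, Pi.add_apply, sub_add_cancel]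
      rw [e]
      exact add_mem (hm _ _ (by push_cast; omega) h1) hF
    have h2 := (hb r s 1 (Or.inl rfl)).2 1 d _ hG
    have e : (oD - 1 : Module.End (ZMod 5) (Fn5 (5 ^ r) (5 ^ s))) F =
        (fun x y => F (x + 5 * 1 * x ^ 1) (y + 5 * (-(6 : ZMod (5 ^ s))⁻¹) * y ^ 1)
          - F x (y + 5 * (-(6 : ZMod (5 ^ s))⁻¹) * y ^ 1)) +
        (fun x y => F x (y + 5 * (-(6 : ZMod (5 ^ s))⁻¹) * y ^ 1) - F x y) := by
      funext x y
      rw [LinearMap.sub_apply, Pi.sub_apply, Pi.sub_apply, Module.End.one_apply, Pi.add_apply, Pi.add_apply,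
        sub_add_sub_cancel]
      congr 1
      show F ((((0 : ℤ) : ZMod (5 ^ r)) + ((6 : ℤ) : ZMod (5 ^ r)) * x) * ((((1 : ℤ)) : ZMod (5 ^ r)) + 5 * ((0 : ℤ) : ZMod (5 ^ r)) * x)⁻¹)
        ((((0 : ℤ) : ZMod (5 ^ s)) + ((1 : ℤ) : ZMod (5 ^ s)) * y) * (((6 : ℤ) : ZMod (5 ^ s)) + 5 * ((0 : ℤ) : ZMod (5 ^ s)) * y)⁻¹) = _
      have f1 : (((0 : ℤ) : ZMod (5 ^ r)) + ((6 : ℤ) : ZMod (5 ^ r)) * x) * ((((1 : ℤ)) : ZMod (5 ^ r)) + 5 * ((0 : ℤ) : ZMod (5 ^ r)) * x)⁻¹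
          = x + 5 * 1 * x ^ 1 := by
        rw [Int.cast_zero, Int.cast_one, mul_zero, zero_mul, add_zero, ZMod.inv_one, mul_one]
        push_cast
        ring
      have f2 : (((0 : ℤ) : ZMod (5 ^ s)) + ((1 : ℤ) : ZMod (5 ^ s)) * y) * (((6 : ℤ) : ZMod (5 ^ s)) + 5 * ((0 : ℤ) : ZMod (5 ^ s)) * y)⁻¹
          = y + 5 * (-(6 : ZMod (5 ^ s))⁻¹) * y ^ 1 := by
        rw [Int.cast_zero, Int.cast_one, mul_zero, zero_mul, add_zero]
        push_cast
        linear_combination y * h6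
      rw [f1, f2]
    rw [e]
    exact add_mem (hm _ _ (by push_cast; omega) h2) (hm _ _ (by push_cast; omega) h1)
  · have e : (oA - 1 : Module.End (ZMod 5) (Fn5 (5 ^ r) (5 ^ s))) = (oA - 1 - dX) + dX := by abel
    rw [e]
    exact hsum _ _ _ (hlow _ _ _ (by norm_num) hA3) hX
  · have e : (oB - 1 : Module.End (ZMod 5) (Fn5 (5 ^ r) (5 ^ s))) = (oB - 1 - dY) + dY := by abel
    rw [e]
    exact hsum _ _ _ (hlow _ _ _ (by norm_num) hB3) hY

end Pool.Agent.Helper72.W5
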